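import Pool.Agent.Q211.TP.Uni

/-!
# A non-N-compact union of a sequence of `c_δ`-embedded N-compact subspaces

The model and the space are described in the file of the problem `MP_63c7e0_lc`: the space is the
linearly ordered space that consists of the nodes `0, 1, 2, …` and a block of atoms of order type
`ℤ` between any two successive nodes, and only finitely many blocks have enumerations that are
chosen simultaneously. A clopen subset of the initial segment below the node `n` extends to a
clopen subset of the space that is constant beyond the node `n`, so the initial segments are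
`c_δ`-embedded.
-/

set_option autoImplicit false

namespace Pool.Agent.Results.MP_591233_lc.CdeltaEmbeddedUnion

open Pool.Agent.W868 Pool.Agent.W868.PName Pool.Agent.Q211.SY Pool.Agent.Q211.FS
open Pool.Agent.Q211.TP

/-- There is a countable transitive model of ZF with a zero-dimensional `T₁` space that is the
union of a sequence of `c_δ`-embedded `ℕ`-compact subspaces but is not `ℕ`-compact. -/
theorem result : ∃ M : Set ZFSet.{0}, M.Countable ∧ IsZF M ∧
    ∃ X ∈ M, ∃ τ ∈ M, IsTopIn M X τ ∧ ZeroDim X τ ∧
      (∃ s ∈ M, ∃ A : ℕ → ZFSet.{0}, IsSeq s A ∧ (∀ z, z ∈ X ↔ ∃ n, z ∈ A n) ∧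
        ∀ n, NatCompactIn M (A n) (subTop τ (A n)) ∧ CdeltaEmb M X τ (A n)) ∧
      ¬ NatCompactIn M X τ := by
  obtain ⟨M, X, τ, s, A, h⟩ := exists_uni
  exact ⟨M, h.cnt, h.zf, X, h.XM, τ, h.τM, h.top, h.zd, ⟨s, h.sM, A, h.seq, h.un, fun n =>
    ⟨h.cpt n _ _ _ (goodE_nat h.zf), h.cde n⟩⟩,
    h.not _ _ _ flat_omega (goodE_nat h.zf)⟩

end Pool.Agent.Results.MP_591233_lc.CdeltaEmbeddedUnion
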